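import Pool.Agent.helper48.Part.Defs

set_option autoImplicit false
open Pointwise Cardinal

universe u

namespace Pool.Agent.helper48.Part

/-- a countable divisible group containing all cyclic groups -/
abbrev DD : Type := AddCircle (1 : ℚ) × ℚ

instance : Countable (AddCircle (1 : ℚ)) := by
  unfold AddCircle
  exact Quotient.countable

theorem exists_order (n : ℕ) : ∃ d : DD, addOrderOf d = n := by
  rcases Nat.eq_zero_or_pos n with rfl | hn
  · refine ⟨(0, 1), ?_⟩
    rw [addOrderOf_eq_zero_iff']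
    intro m hm h
    have := congrArg Prod.snd h
    simp at this
    omega
  · refine ⟨((((1 : ℚ) / n : ℚ) : AddCircle (1 : ℚ)), 0), ?_⟩
    rw [Prod.addOrderOf]
    simp only [addOrderOf_zero, Nat.lcm_one_right]
    exact AddCircle.addOrderOf_period_div hn

theorem baer_finsupp (S : Type u) : Module.Baer ℤ (S →₀ DD) := by
  have hsurj : ∀ {n : ℤ}, n ≠ 0 → Function.Surjective (fun f : S →₀ DD => n • f) := by
    intro n hn f
    classical
    refine ⟨Finsupp.mapRange (fun x : DD => if x = 0 then 0 else DivisibleBy.div x n) (by simp) f, ?_⟩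
    ext1 i
    rw [Finsupp.smul_apply, Finsupp.mapRange_apply]
    split_ifs with h
    · rw [h, smul_zero]
    · exact DivisibleBy.div_cancel (f i) hn
  have : DivisibleBy (S →₀ DD) ℤ := divisibleByOfSMulRightSurj _ _ hsurj
  exact Module.Baer.of_divisible _

theorem exists_cyclic_embedding {A : Type u} [AddCommGroup A] (C : Submodule ℤ A)
    (h : ∃ x, C = Submodule.span ℤ {x}) : ∃ φ : C →+ DD, Function.Injective φ := by
  obtain ⟨x, rfl⟩ := h
  obtain ⟨d, hd⟩ := exists_order (addOrderOf x)
  have key : ∀ c : ℤ, c • x = 0 ↔ c • d = 0 := by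
    intro c
    rw [← addOrderOf_dvd_iff_zsmul_eq_zero, ← addOrderOf_dvd_iff_zsmul_eq_zero, hd]
  let f := LinearPMap.mkSpanSingleton' (R := ℤ) (σ := RingHom.id ℤ) x d (fun c hc => (key c).1 hc)
  refine ⟨f.toFun.toAddMonoidHom, ?_⟩
  rw [injective_iff_map_eq_zero]
  rintro ⟨y, hy⟩ h0
  obtain ⟨c, rfl⟩ := Submodule.mem_span_singleton.1 hy
  have h1 : f ⟨c • x, hy⟩ = c • d := LinearPMap.mkSpanSingleton'_apply x d _ c hy
  have h2 : c • d = 0 := by rw [← h1]; exact h0
  exact Subtype.ext ((key c).2 h2)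

theorem exists_maximal {A : Type u} [AddCommGroup A] : ∃ S : Set (Submodule ℤ A),
    sSupIndep S ∧ (∀ C ∈ S, ∃ x, C = Submodule.span ℤ {x}) ∧
    ∀ x : A, x ≠ 0 → ¬ Disjoint (Submodule.span ℤ {x}) (sSup S) := by
  obtain ⟨S, hS⟩ := zorn_subset
    (S := {s : Set (Submodule ℤ A) | sSupIndep s ∧ ∀ C ∈ s, ∃ x, C = Submodule.span ℤ {x}})
    fun c hc1 hc2 =>
      ⟨⋃₀ c,
        ⟨iSupIndep_sUnion_of_directed hc2.directedOn fun s hs => (hc1 hs).1,
          fun a ⟨s, sc, as⟩ => (hc1 sc).2 a as⟩,
        fun _ => Set.subset_sUnion_of_mem⟩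
  refine ⟨S, hS.prop.1, hS.prop.2, ?_⟩
  intro x hx hdis
  have hmem : Submodule.span ℤ {x} ∈ S := by
    have hins : insert (Submodule.span ℤ {x}) S ∈
        {s : Set (Submodule ℤ A) | sSupIndep s ∧ ∀ C ∈ s, ∃ x, C = Submodule.span ℤ {x}} := by
      refine ⟨?_, ?_⟩
      · rintro y hy
        obtain rfl | ya := eq_or_ne y (Submodule.span ℤ {x})
        · simp only [Set.mem_singleton, Set.insert_sdiff_of_mem]
          exact hdis.mono_right (sSup_le_sSup Set.sdiff_subset)
        · have hyS : y ∈ S := hy.resolve_left ya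
          have h : (insert (Submodule.span ℤ {x}) S) \ {y} = insert (Submodule.span ℤ {x}) (S \ {y}) := by
            rw [Set.insert_sdiff_of_notMem]
            rw [Set.mem_singleton_iff]
            exact Ne.symm ya
          rw [h, sSup_insert, sup_comm]
          apply (hS.prop.1 hyS).disjoint_sup_right_of_disjoint_sup_left
          rw [← sSup_insert, Set.insert_sdiff_singleton, Set.insert_eq_of_mem hyS]
          exact hdis.symm
      · rintro C (rfl | hC)
        · exact ⟨x, rfl⟩
        · exact hS.prop.2 C hC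
    exact hS.le_of_ge hins (Set.subset_insert _ _) (Set.mem_insert _ _)
  have h1 : x ∈ sSup S := (le_sSup hmem) (Submodule.mem_span_singleton_self x)
  exact hx (Submodule.disjoint_def.1 hdis x (Submodule.mem_span_singleton_self x) h1)

theorem exists_embedding (A : Type u) [AddCommGroup A] :
    ∃ (S : Type u) (h : A →+ (S →₀ DD)), Function.Injective h := by
  classical
  obtain ⟨S, hind, hcyc, hmax⟩ := exists_maximal (A := A)
  have hind' : iSupIndep (fun i : S => (i : Submodule ℤ A)) := (sSupIndep_iff S).1 hind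
  choose φ hφ using fun i : S => exists_cyclic_embedding (i : Submodule ℤ A) (hcyc i i.2)
  -- the map Φ
  set Φ : (Π₀ i : S, (i : Submodule ℤ A)) →+ A :=
    (DFinsupp.lsum ℕ fun i : S => ((i : Submodule ℤ A).subtype)).toAddMonoidHom with hΦ
  have hΦinj : Function.Injective Φ := hind'.dfinsupp_lsum_injective
  set Ψ : (Π₀ i : S, (i : Submodule ℤ A)) →+ (S →₀ DD) :=
    DFinsupp.sumAddHom (fun i => (Finsupp.singleAddHom i).comp (φ i)) with hΨ
  have hΨapp : ∀ w i, Ψ w i = φ i (w i) := by
    intro w i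
    induction w using DFinsupp.induction with
    | h0 => simp
    | ha j b f _ _ ih =>
      rw [map_add, Finsupp.add_apply, ih, DFinsupp.add_apply, map_add]
      congr 1
      rw [hΨ, DFinsupp.sumAddHom_single]
      rcases eq_or_ne j i with rfl | hji
      · simp
      · rw [DFinsupp.single_eq_of_ne hji.symm, map_zero]
        simp [Finsupp.single_eq_of_ne hji.symm]
  have hΨinj : ∀ w, Ψ w = 0 → w = 0 := by
    intro w hw
    ext1 i
    apply hφ i
    rw [← hΨapp, hw]
    simp
  obtain ⟨h, hh⟩ := (baer_finsupp S).extension_property_addMonoidHom Φ hΦinj Ψ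
  refine ⟨S, h, ?_⟩
  rw [injective_iff_map_eq_zero]
  intro x hx
  by_contra hx0
  apply hmax x hx0
  rw [Submodule.disjoint_def]
  intro y hy hy'
  obtain ⟨n, rfl⟩ := Submodule.mem_span_singleton.1 hy
  have hrange : n • x ∈ Set.range Φ := by
    rw [sSup_eq_iSup', Submodule.iSup_eq_range_dfinsupp_lsum] at hy'
    exact hy'
  obtain ⟨w, hw⟩ := hrange
  have h1 : Ψ w = 0 := by
    rw [← hh]
    show h (Φ w) = 0
    rw [hw, map_zsmul, hx, smul_zero]
  rw [← hw, hΨinj w h1, map_zero]

theorem mk_finsupp_supported_le {S : Type u} (Q : Set S) :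
    #{f : S →₀ DD | (f.support : Set S) ⊆ Q} ≤ max (#Q) ℵ₀ := by
  classical
  have h1 : #{f : S →₀ DD | (f.support : Set S) ⊆ Q} ≤ #(Q →₀ DD) := by
    refine mk_le_of_injective (f := fun f => f.1.subtypeDomain (· ∈ Q)) ?_
    rintro ⟨f, hf⟩ ⟨g, hg⟩ hfg
    apply Subtype.ext
    ext1 i
    by_cases hi : i ∈ Q
    · exact DFunLike.congr_fun hfg ⟨i, hi⟩
    · have h1 : f i = 0 := by
        by_contra h0
        exact hi (hf (Finsupp.mem_support_iff.2 h0))
      have h2 : g i = 0 := by
        by_contra h0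
        exact hi (hg (Finsupp.mem_support_iff.2 h0))
      show f i = g i
      rw [h1, h2]
  refine h1.trans ?_
  rcases isEmpty_or_nonempty Q with hQ | hQ
  · have : #(Q →₀ DD) ≤ ℵ₀ := (Cardinal.mk_le_aleph0_iff).2 inferInstance
    exact this.trans (le_max_right _ _)
  · rw [Cardinal.mk_finsupp_lift_of_infinite']
    refine max_le ?_ ?_
    · simp
    · refine le_trans ?_ (le_max_right _ _)
      rw [lift_le_aleph0]
      exact mk_le_aleph0

theorem finSupported_of_comm {κ : Cardinal.{u}} (hω : ℵ₀ < κ) {K : Type u} [Group K]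
    (hcomm : ∀ x y : K, x * y = y * x) : FinSupported κ K := by
  classical
  let _ : CommGroup K := { (inferInstance : Group K) with mul_comm := hcomm }
  obtain ⟨S, h, hh⟩ := exists_embedding (Additive K)
  refine ⟨S, fun x => (h (Additive.ofMul x)).support, ℵ₀, hω, fun x y => ?_, fun Q => ?_⟩
  · have : h (Additive.ofMul (x * y⁻¹)) = h (Additive.ofMul x) - h (Additive.ofMul y) := by
      rw [← map_sub]; congr 1
      show Additive.ofMul (x * y⁻¹) = Additive.ofMul (x / y)
      rw [div_eq_mul_inv]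
    show ((h (Additive.ofMul (x * y⁻¹))).support : Set S) ⊆
      ((h (Additive.ofMul x)).support : Set S) ∪ ((h (Additive.ofMul y)).support : Set S)
    rw [this, ← Finset.coe_union, Finset.coe_subset]
    exact Finsupp.support_sub
  · refine le_trans ?_ (mk_finsupp_supported_le Q)
    refine mk_le_of_injective (f := fun x => ⟨h (Additive.ofMul x.1), x.2⟩) ?_
    intro a b hab
    exact Subtype.ext (hh (congrArg Subtype.val hab))

end Pool.Agent.helper48.Part
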