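import Pool.Agent.helper48.Part.Defs

set_option autoImplicit false
open Pointwise Cardinal

universe u

namespace Pool.Agent.helper48.Part

theorem mk_closure_le {G : Type u} [Group G] (X : Set G) : #(Subgroup.closure X) ≤ max (#X) ℵ₀ := by
  rcases Set.eq_empty_or_nonempty X with rfl | hX
  · rw [Subgroup.closure_empty]
    have : #(⊥ : Subgroup G) ≤ ℵ₀ := (Cardinal.lt_aleph0_of_finite _).le
    exact this.trans (le_max_right _ _)
  · have : Nonempty X := hX.to_subtype
    rw [← Cardinal.mk_freeGroup]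
    have h1 : (FreeGroup.lift (Subtype.val : X → G)).range = Subgroup.closure X := by
      rw [FreeGroup.range_lift_eq_closure, Subtype.range_coe]
    rw [← h1]
    exact Cardinal.mk_range_le

theorem good_of_colour {G : Type u} [Group G] (c : G → ℕ)
    (h : ∀ n : ℕ, ∀ F : Set G, #F < #G →
      ∃ g : G, ∀ f ∈ F, ∀ a b : G, c a = n → c b = n → g ≠ f * (a * b⁻¹)) :
    GoodPartition G := by
  refine ⟨fun n => {x | c x = n}, ?_, ?_, ?_⟩
  · ext x; simp
  · intro i j hij
    rw [Set.disjoint_left]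
    rintro x hx hx'
    exact hij (hx.symm.trans hx')
  · rintro n ⟨F, hF, huniv⟩
    obtain ⟨g, hg⟩ := h n F hF
    have : g ∈ F * ({x | c x = n} * ({x | c x = n})⁻¹) := by rw [huniv]; trivial
    obtain ⟨f, hf, y, ⟨a, ha, b, hb, rfl⟩, rfl⟩ := this
    exact hg f hf a b⁻¹ ha hb (by simp)

theorem good_of_quotient {G : Type u} [Group G] (N : Subgroup G) [N.Normal]
    (hcard : #(G ⧸ N) = #G) (h : GoodPartition (G ⧸ N)) : GoodPartition G := by
  obtain ⟨A, hA1, hA2, hA3⟩ := h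
  refine ⟨fun n => (QuotientGroup.mk : G → G ⧸ N) ⁻¹' (A n), ?_, ?_, ?_⟩
  · rw [← Set.preimage_iUnion, hA1, Set.preimage_univ]
  · intro i j hij
    exact (hA2 hij).preimage _
  · rintro n ⟨F, hF, huniv⟩
    apply hA3 n
    refine ⟨(QuotientGroup.mk : G → G ⧸ N) '' F, ?_, ?_⟩
    · exact lt_of_le_of_lt mk_image_le (by rw [hcard]; exact hF)
    · rw [Set.eq_univ_iff_forall]
      intro y
      obtain ⟨x, rfl⟩ := QuotientGroup.mk_surjective y
      have : x ∈ F * ((QuotientGroup.mk : G → G ⧸ N) ⁻¹' (A n) *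
          ((QuotientGroup.mk : G → G ⧸ N) ⁻¹' (A n))⁻¹) := by rw [huniv]; trivial
      obtain ⟨f, hf, z, ⟨a, ha, b, hb, rfl⟩, rfl⟩ := this
      refine ⟨_, ⟨f, hf, rfl⟩, _, ⟨QuotientGroup.mk a, ha, QuotientGroup.mk b, ?_, rfl⟩, rfl⟩
      simpa using hb

section LemmaC

variable {K P : Type u} [Group K] (supp : K → Finset P)

/-- support axioms -/
structure SuppAx (supp : K → Finset P) (θ : Cardinal.{u}) : Prop where
  div : ∀ x y : K, (supp (x * y⁻¹) : Set P) ⊆ (supp x : Set P) ∪ (supp y : Set P)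
  fib : ∀ Q : Set P, #{x : K | (supp x : Set P) ⊆ Q} ≤ max (#Q) θ

variable {supp} {θ : Cardinal.{u}}

theorem SuppAx.one (h : SuppAx supp θ) (x : K) : (supp 1 : Set P) ⊆ supp x := by
  have := h.div x x
  simpa using this

theorem SuppAx.inv (h : SuppAx supp θ) (x : K) : (supp x⁻¹ : Set P) ⊆ supp x := by
  have := h.div 1 x
  rw [one_mul] at this
  exact this.trans (Set.union_subset (h.one x) le_rfl)

theorem SuppAx.mul (h : SuppAx supp θ) (x y : K) :
    (supp (x * y) : Set P) ⊆ (supp x : Set P) ∪ (supp y : Set P) := by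
  have := h.div x y⁻¹
  rw [inv_inv] at this
  exact this.trans (Set.union_subset_union le_rfl (h.inv y))

theorem mk_iUnion_supp_le {ι : Type u} (s : ι → Finset P) (ν : Cardinal.{u}) (hν : ℵ₀ ≤ ν)
    (hι : #ι ≤ ν) : #(⋃ i, (s i : Set P) : Set P) ≤ ν := by
  refine (mk_iUnion_le_sum_mk).trans ?_
  refine (sum_le_sum _ (fun _ => ℵ₀) (fun i => ?_)).trans ?_
  · exact (Cardinal.lt_aleph0_of_finite _).le
  · rw [sum_const']
    exact (mul_le_mul' hι hν).trans (mul_eq_self hν).le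

theorem lemmaC {κ : Cardinal.{u}} (hκ : ∀ c < κ, Order.succ c < κ) (hω : ℵ₀ < κ)
    (h : SuppAx supp θ) (hθ : θ < κ) (n : ℕ) : ∀ μ : Cardinal.{u}, μ < κ → ∃ ν : Cardinal.{u},
    ν < κ ∧ ∀ K' : Subgroup K, ν ≤ #K' → ∀ (ι : Type u), #ι ≤ μ → ∀ t : ι → (K →* K),
      (∀ i, Function.Injective (t i)) → ∀ Q : Set P, #Q ≤ μ →
      ∃ z ∈ K', ∀ i, n ≤ ((supp (t i z) : Set P) \ Q).ncard := by
  induction n with
  | zero =>
    intro μ hμ
    exact ⟨0, lt_of_le_of_lt (by simp) hμ, fun K' _ ι _ t _ Q _ => ⟨1, K'.one_mem, fun i => Nat.zero_le _⟩⟩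
  | succ n ih =>
    intro μ hμ
    set μ' := max μ (max θ ℵ₀) with hμ'
    have hμ'κ : μ' < κ := max_lt hμ (max_lt hθ hω)
    obtain ⟨νn, hνn, hν⟩ := ih μ' hμ'κ
    set ν' := max νn μ' with hν'
    have hν'κ : ν' < κ := max_lt hνn hμ'κ
    have hων' : ℵ₀ ≤ ν' := (le_max_right _ _).trans ((le_max_right _ _).trans (le_max_right _ _))
    have hωμ' : ℵ₀ ≤ μ' := (le_max_right _ _).trans (le_max_right _ _)
    have hθν' : θ ≤ ν' := (le_max_left _ _).trans ((le_max_right _ _).trans (le_max_right _ _))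
    have hμν' : μ ≤ ν' := (le_max_left _ _).trans (le_max_right _ _)
    have hμ'ν' : μ' ≤ ν' := (le_max_right _ _)
    refine ⟨Order.succ ν', hκ _ hν'κ, ?_⟩
    intro K' hK' ι hι t ht Q hQ
    -- choose a subset of `K'` of size `ν'`
    obtain ⟨X, hXK, hX⟩ := (Cardinal.le_mk_iff_exists_subset (c := ν') (s := (K' : Set K))).1
      ((Order.le_succ _).trans hK')
    set K'' := Subgroup.closure X with hK''
    have hK''K' : K'' ≤ K' := (Subgroup.closure_le _).2 hXK
    have hle : ν' ≤ #K'' := by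
      rw [← hX]; exact mk_le_mk_of_subset Subgroup.subset_closure
    have hge : #K'' ≤ ν' := by
      have := mk_closure_le X
      rw [hX] at this
      exact this.trans (max_le le_rfl hων')
    set P'' : Set P := Q ∪ ⋃ p : ι × K'', (supp (t p.1 p.2) : Set P) with hP''
    have hP''c : #P'' ≤ ν' := by
      refine (mk_union_le _ _).trans ((add_le_add (hQ.trans hμν') (mk_iUnion_supp_le _ ν' hων' ?_)).trans
        (add_eq_self hων').le)
      rw [mk_prod, lift_id, lift_id]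
      exact (mul_le_mul' (hι.trans hμν') hge).trans (mul_eq_self hων').le
    -- bad elements
    have hbad : ∃ z₁ ∈ K', ∀ i, ¬ ((supp (t i z₁) : Set P) ⊆ P'') := by
      by_contra hcon
      push Not at hcon
      have hsub : (K' : Set K) ⊆ ⋃ i, {z : K | (supp (t i z) : Set P) ⊆ P''} := by
        intro z hz
        obtain ⟨i, hi⟩ := hcon z hz
        exact Set.mem_iUnion.2 ⟨i, hi⟩
      have h1 : #(K' : Set K) ≤ ν' := by
        refine (mk_le_mk_of_subset hsub).trans (mk_iUnion_le_sum_mk.trans ?_)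
        refine (sum_le_sum _ (fun _ => ν') (fun i => ?_)).trans ?_
        · have : #{z : K | (supp (t i z) : Set P) ⊆ P''} ≤ #{x : K | (supp x : Set P) ⊆ P''} := by
            refine mk_le_of_injective (f := fun z => ⟨t i z.1, z.2⟩) ?_
            intro a b hab
            have := congrArg Subtype.val hab
            exact Subtype.ext (ht i this)
          exact this.trans ((h.fib P'').trans (max_le hP''c hθν'))
        · rw [sum_const']
          exact (mul_le_mul' (hι.trans hμν') le_rfl).trans (mul_eq_self hων').le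
      exact absurd (hK'.trans h1) (not_le.2 (Order.lt_succ _))
    obtain ⟨z₁, hz₁K, hz₁⟩ := hbad
    set Q'' : Set P := Q ∪ ⋃ i, (supp (t i z₁) : Set P) with hQ''
    have hQ''c : #Q'' ≤ μ' := by
      refine (mk_union_le _ _).trans ((add_le_add (hQ.trans (le_max_left _ _))
        (mk_iUnion_supp_le _ μ' hωμ' (hι.trans (le_max_left _ _)))).trans (add_eq_self hωμ').le)
    obtain ⟨z', hz'K, hz'⟩ := hν K'' ((le_max_left _ _).trans hle) ι (hι.trans (le_max_left _ _)) t ht Q'' hQ''c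
    refine ⟨z' * z₁, K'.mul_mem (hK''K' hz'K) hz₁K, fun i => ?_⟩
    obtain ⟨p, hp1, hp2⟩ := Set.not_subset.1 (hz₁ i)
    have e1 : t i z' = t i (z' * z₁) * (t i z₁)⁻¹ := by rw [map_mul]; group
    have e2 : t i z₁ = (t i z')⁻¹ * t i (z' * z₁) := by rw [map_mul]; group
    have hs' : (supp (t i z') : Set P) ⊆ P'' := by
      intro q hq
      exact Or.inr (Set.mem_iUnion.2 ⟨(i, ⟨z', hz'K⟩), hq⟩)
    have hsub1 : ((supp (t i z') : Set P) \ Q'') ⊆ (supp (t i (z' * z₁)) : Set P) \ Q := by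
      rintro q ⟨hq1, hq2⟩
      refine ⟨?_, fun hq => hq2 (Or.inl hq)⟩
      have h3 : (supp (t i z') : Set P) ⊆ (supp (t i (z' * z₁)) : Set P) ∪ supp (t i z₁) := by
        conv_lhs => rw [e1]
        exact h.div _ _
      rcases h3 hq1 with h4 | h4
      · exact h4
      · exact absurd (Or.inr (Set.mem_iUnion.2 ⟨i, h4⟩)) hq2
    have hpmem : p ∈ (supp (t i (z' * z₁)) : Set P) \ Q := by
      refine ⟨?_, fun hq => hp2 (Or.inl hq)⟩
      have h3 : (supp (t i z₁) : Set P) ⊆ (supp (t i z')⁻¹ : Set P) ∪ supp (t i (z' * z₁)) := by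
        conv_lhs => rw [e2]
        exact h.mul _ _
      rcases h3 hp1 with h4 | h4
      · exact absurd (hs' (h.inv _ h4)) hp2
      · exact h4
    have hpn : p ∉ ((supp (t i z') : Set P) \ Q'') := fun hq => hp2 (hs' hq.1)
    have hfin : ((supp (t i (z' * z₁)) : Set P) \ Q).Finite := (Finset.finite_toSet _).sdiff
    calc n + 1 ≤ ((supp (t i z') : Set P) \ Q'').ncard + 1 := by
          have := hz' i
          omega
      _ = (insert p ((supp (t i z') : Set P) \ Q'')).ncard :=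
          (Set.ncard_insert_of_notMem hpn ((Finset.finite_toSet _).sdiff)).symm
      _ ≤ _ := Set.ncard_le_ncard (Set.insert_subset hpmem hsub1) hfin

end LemmaC

theorem mk_quotient_mul {G : Type u} [Group G] (K : Subgroup G) : #G = #(G ⧸ K) * #K := by
  rw [Cardinal.mk_congr (Subgroup.groupEquivQuotientProdSubgroup (s := K)), mk_prod, lift_id, lift_id]

theorem mk_eq_of_quotient_lt {G : Type u} [Group G] (hω : ℵ₀ ≤ #G) (K : Subgroup G)
    (hquot : #(G ⧸ K) < #G) : #K = #G := by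
  refine le_antisymm (mk_subtype_le _) ?_
  by_contra hcon
  push Not at hcon
  have := mul_lt_of_lt hω hquot hcon
  rw [← mk_quotient_mul] at this
  exact lt_irrefl _ this

/-- coset representative -/
noncomputable def rep {G : Type u} [Group G] (K : Subgroup G) (x : G) : G :=
  Quotient.out (QuotientGroup.mk x : G ⧸ K)

theorem rep_mem {G : Type u} [Group G] (K : Subgroup G) (x : G) : (rep K x)⁻¹ * x ∈ K := by
  rw [← QuotientGroup.eq]
  exact Quotient.out_eq' (QuotientGroup.mk x : G ⧸ K)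

theorem mk_range_rep {G : Type u} [Group G] (K : Subgroup G) : #(Set.range (rep K)) ≤ #(G ⧸ K) := by
  have : Set.range (rep K) ⊆ Set.range (Quotient.out : G ⧸ K → G) := by
    rintro _ ⟨x, rfl⟩; exact ⟨_, rfl⟩
  exact (mk_le_mk_of_subset this).trans mk_range_le

theorem good_of_normal_supported {G : Type u} [Group G] (hκ : ∀ c < #G, Order.succ c < #G)
    (hω : ℵ₀ < #G) (K : Subgroup G) [hK : K.Normal] (hquot : #(G ⧸ K) < #G)
    (hs : FinSupported (#G) K) : GoodPartition G := by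
  obtain ⟨P, supp, θ, hθ, hdiv, hfib⟩ := hs
  have hax : SuppAx supp θ := ⟨hdiv, hfib⟩
  refine good_of_colour (fun x => (supp ⟨(rep K x)⁻¹ * x, rep_mem K x⟩).card) ?_
  intro n F hF
  by_contra hcon
  push Not at hcon
  set R := Set.range (rep K) with hR
  have hRc : #R < #G := (mk_range_rep K).trans_lt hquot
  -- the set of small supports
  set V : Type u := {v : (R × F) × R // ((v.1.1 : G)⁻¹ * v.1.2 * v.2 : G) ∈ K} with hV
  have hVc : #V < #G := by
    refine (mk_subtype_le _).trans_lt ?_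
    simp only [mk_prod, lift_id]
    exact mul_lt_of_lt hω.le (mul_lt_of_lt hω.le hRc hF) hRc
  set Q : Set P := ⋃ v : V, (supp ⟨_, v.2⟩ : Set P) with hQ
  set μ : Cardinal.{u} := max (max #V #R) ℵ₀ with hμ
  have hμκ : μ < #G := max_lt (max_lt hVc hRc) hω
  have hQc : #Q ≤ μ := mk_iUnion_supp_le _ μ (le_max_right _ _) ((le_max_left _ _).trans (le_max_left _ _))
  obtain ⟨ν, hν, hC⟩ := lemmaC hκ hω hax hθ (2 * n + 1) μ hμκ
  set t : R → (K →* K) := fun r => (MulAut.conjNormal (r : G)⁻¹ : K ≃* K).toMonoidHom with ht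
  have htinj : ∀ r, Function.Injective (t r) := fun r => (MulAut.conjNormal (r : G)⁻¹ : K ≃* K).injective
  obtain ⟨z, -, hz⟩ := hC ⊤ (by
    rw [mk_congr Subgroup.topEquiv.toEquiv, mk_eq_of_quotient_lt hω.le K hquot]; exact hν.le) R
    ((le_max_right _ _).trans (le_max_left _ _)) t htinj Q hQc
  obtain ⟨f, hf, a, b, ha, hb, hg⟩ := hcon (z : G)
  set ka : K := ⟨(rep K a)⁻¹ * a, rep_mem K a⟩ with hka
  set kb : K := ⟨(rep K b)⁻¹ * b, rep_mem K b⟩ with hkb
  -- conjugate
  have hcon : ((rep K b)⁻¹ * f * rep K a : G) = ((t ⟨rep K b, ⟨b, rfl⟩⟩ z) * (ka * kb⁻¹)⁻¹ : K) := by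
    simp [ht, hka, hkb, hg]
    group
  have hmem : ((rep K b)⁻¹ * f * rep K a : G) ∈ K := by rw [hcon]; exact SetLike.coe_mem _
  let v : V := ⟨((⟨rep K b, ⟨b, rfl⟩⟩, ⟨f, hf⟩), ⟨rep K a, ⟨a, rfl⟩⟩), hmem⟩
  have heq : t ⟨rep K b, ⟨b, rfl⟩⟩ z = (⟨_, v.2⟩ : K) * (ka * kb⁻¹) := by
    have : (⟨_, v.2⟩ : K) = (t ⟨rep K b, ⟨b, rfl⟩⟩ z) * (ka * kb⁻¹)⁻¹ := Subtype.ext hcon
    rw [this]; group
  have hsub : (supp (t ⟨rep K b, ⟨b, rfl⟩⟩ z) : Set P) \ Q ⊆ (supp ka : Set P) ∪ supp kb := by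
    rintro p ⟨hp1, hp2⟩
    rw [heq] at hp1
    rcases hax.mul _ _ hp1 with h1 | h1
    · exact absurd (Set.mem_iUnion.2 ⟨v, h1⟩) hp2
    · exact hax.div _ _ h1
  have h1 := hz ⟨rep K b, ⟨b, rfl⟩⟩
  have h2 := Set.ncard_le_ncard hsub ((Finset.finite_toSet _).union (Finset.finite_toSet _))
  have h3 := Set.ncard_union_le (supp ka : Set P) (supp kb : Set P)
  rw [Set.ncard_coe_finset, Set.ncard_coe_finset] at h3
  have ha' : (supp ka).card = n := ha
  have hb' : (supp kb).card = n := hb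
  omega

theorem good_of_normal_union {G : Type u} [Group G] (hω : ℵ₀ < #G) (K : ℕ → Subgroup G)
    (hK : ∀ n, (K n).Normal) (hbig : ∀ n, ¬ #(G ⧸ K n) < #G) (L : Subgroup G)
    (hL : #(G ⧸ L) < #G) (hLK : ∀ x ∈ L, ∃ n, x ∈ K n) : GoodPartition G := by
  classical
  refine good_of_colour (fun x => Nat.find (hLK _ (rep_mem L x))) ?_
  intro n F hF
  by_contra hcon
  push Not at hcon
  set R := Set.range (rep L) with hR
  have hRc : #R < #G := (mk_range_rep L).trans_lt hL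
  apply hbig n
  have hsurj : Function.Surjective (fun v : (F × R) × R =>
      (QuotientGroup.mk ((v.1.1 : G) * v.1.2 * (v.2 : G)⁻¹) : G ⧸ K n)) := by
    intro y
    obtain ⟨g, rfl⟩ := QuotientGroup.mk_surjective y
    obtain ⟨f, hf, a, b, ha, hb, hg⟩ := hcon g
    refine ⟨((⟨f, hf⟩, ⟨rep L a, ⟨a, rfl⟩⟩), ⟨rep L b, ⟨b, rfl⟩⟩), ?_⟩
    have h1 : (rep L a)⁻¹ * a ∈ K n := ha ▸ Nat.find_spec (hLK _ (rep_mem L a))
    have h2 : (rep L b)⁻¹ * b ∈ K n := hb ▸ Nat.find_spec (hLK _ (rep_mem L b))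
    rw [QuotientGroup.eq]
    have h3 : ((f * rep L a * (rep L b)⁻¹)⁻¹ * g) =
        rep L b * (((rep L a)⁻¹ * a) * ((rep L b)⁻¹ * b)⁻¹) * (rep L b)⁻¹ := by
      rw [hg]; group
    rw [h3]
    exact (hK n).conj_mem _ ((K n).mul_mem h1 ((K n).inv_mem h2)) _
  refine (mk_le_of_surjective hsurj).trans_lt ?_
  simp only [mk_prod, lift_id]
  exact mul_lt_of_lt hω.le (mul_lt_of_lt hω.le hF hRc) hRc

/-- trivial case: `G` is a countable union of small sets -/
theorem good_of_small_union {G : Type u} [Group G] (hω : ℵ₀ ≤ #G) (c : G → ℕ)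
    (hc : ∀ n, #{x | c x = n} < #G) : GoodPartition G := by
  refine good_of_colour c ?_
  intro n F hF
  by_contra hcon
  push Not at hcon
  have hsurj : Function.Surjective (fun v : (F × {x | c x = n}) × {x | c x = n} =>
      ((v.1.1 : G) * ((v.1.2 : G) * (v.2 : G)⁻¹))) := by
    intro g
    obtain ⟨f, hf, a, b, ha, hb, hg⟩ := hcon g
    exact ⟨((⟨f, hf⟩, ⟨a, ha⟩), ⟨b, hb⟩), hg.symm⟩
  have h1 := mk_le_of_surjective hsurj
  simp only [mk_prod, lift_id] at h1
  exact absurd (h1.trans_lt (mul_lt_of_lt hω (mul_lt_of_lt hω hF (hc n)) (hc n))) (lt_irrefl _)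

end Pool.Agent.helper48.Part
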