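import Pool.Agent.helper48.Part.Series

set_option autoImplicit false

/-!
# MP_4f48ca_al: groups whose cardinality has countable cofinality
-/

universe u

namespace Pool.Agent.Results.MP_4f48ca_al.CountableCofinality

open Pool.Agent.helper48.Part Cardinal

theorem result (G : Type u) [Group G] [Infinite G]
    (h : (Cardinal.mk G).ord.cof = ℵ₀) : GoodPartition G :=
  good_of_cof (aleph0_le_mk G) h.le

end Pool.Agent.Results.MP_4f48ca_al.CountableCofinality
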