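import Mathlib

set_option autoImplicit false
open Pointwise

universe u

namespace Pool.Agent.helper48.Part

/-- The property asked for in Q1 of the problem: `G` is the disjoint union of countably many sets
`A n` such that for no `n` there is `F ⊆ G` with `#F < #G` and `F · A n · (A n)⁻¹ = G`. -/
def GoodPartition (G : Type u) [Group G] : Prop :=
  ∃ A : ℕ → Set G,
    (⋃ n, A n) = Set.univ ∧
    Pairwise (fun i j => Disjoint (A i) (A j)) ∧
    ∀ n : ℕ, ¬ ∃ F : Set G,
      Cardinal.mk F < Cardinal.mk G ∧ F * (A n * (A n)⁻¹) = Set.univ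

/-- `K` has finite supports below `κ`: there are a set `P`, a cardinal `θ < κ` and a map `supp` from
`K` to the finite subsets of `P` such that `supp (x y⁻¹) ⊆ supp x ∪ supp y` for all `x, y`, and for
every `Q ⊆ P` at most `max (#Q) θ` elements of `K` have their support inside `Q`. -/
def FinSupported (κ : Cardinal.{u}) (K : Type u) [Group K] : Prop :=
  ∃ (P : Type u) (supp : K → Finset P) (θ : Cardinal.{u}), θ < κ ∧
    (∀ x y : K, (supp (x * y⁻¹) : Set P) ⊆ (supp x : Set P) ∪ (supp y : Set P)) ∧
    ∀ Q : Set P, Cardinal.mk {x : K | (supp x : Set P) ⊆ Q} ≤ max (Cardinal.mk Q) θ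

end Pool.Agent.helper48.Part
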