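import Pool.Agent.helper48.Part.Defs

set_option autoImplicit false
open Pointwise Cardinal

universe u

namespace Pool.Agent.helper48.Part

open AlgebraicIndependent in
theorem exists_fieldSupp (F : Type u) [Field F] :
    ∃ (s : F → Finset F) (FQ : Set F → Subfield F),
      (∀ (Q : Set F) (x : F), (s x : Set F) ⊆ Q ↔ x ∈ FQ Q) ∧
      ∀ Q : Set F, #(FQ Q) ≤ max (#Q) ℵ₀ := by
  classical
  set R : Subfield F := ⊥ with hR
  have hRc : #R ≤ ℵ₀ := by
    rw [hR, ← Subfield.closure_empty]
    refine (Subfield.cardinalMk_closure_le_max _).trans ?_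
    simp
  set M := matroid R F with hM
  obtain ⟨B, hB⟩ := M.exists_isBase
  have hclB : M.closure B = Set.univ := hB.closure_eq
  have hcl : ∀ (Q : Set F) (x : F), x ∈ M.closure Q ↔ IsAlgebraic (Algebra.adjoin R Q) x := by
    intro Q x
    rw [hM, matroid_closure_eq, SetLike.mem_coe, Subalgebra.mem_algebraicClosure]
  -- the subfields
  let FQ : Set F → Subfield F := fun Q =>
    { carrier := M.closure (Q ∩ B)
      mul_mem' := by
        intro a b ha hb
        rw [hcl] at *
        exact ha.mul hb
      one_mem' := by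
        rw [hcl]; exact isAlgebraic_one
      add_mem' := by
        intro a b ha hb
        rw [hcl] at *
        exact ha.add hb
      zero_mem' := by
        rw [hcl]; exact isAlgebraic_zero
      neg_mem' := by
        intro a ha
        rw [hcl] at *
        exact ha.neg
      inv_mem' := by
        intro a ha
        rw [hcl] at *
        exact ha.inv }
  have hex : ∀ x : F, ∃ T : Finset F, (T : Set F) ⊆ B ∧ x ∈ M.closure T ∧
      ∀ T' : Finset F, T' ⊆ T → x ∈ M.closure T' → T' = T := by
    intro x
    have hx : x ∈ M.closure B := by rw [hclB]; trivial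
    obtain ⟨C, hC1, hC2, -, hC3⟩ := Matroid.exists_mem_finite_closure_of_mem_closure hx
    set c : Set (Finset F) := {T | (T : Set F) ⊆ B ∧ x ∈ M.closure T} with hc
    have hne : c.Nonempty := ⟨hC2.toFinset, by simpa using hC1, by simpa using hC3⟩
    refine ⟨WellFounded.min (wellFounded_lt (α := Finset F)) c hne, ?_, ?_, ?_⟩
    · exact (WellFounded.min_mem (wellFounded_lt (α := Finset F)) c hne).1
    · exact (WellFounded.min_mem (wellFounded_lt (α := Finset F)) c hne).2
    · intro T' hT' hx'
      by_contra hne'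
      have hlt : T' < WellFounded.min (wellFounded_lt (α := Finset F)) c hne :=
        lt_of_le_of_ne hT' hne'
      refine WellFounded.not_lt_min (wellFounded_lt (α := Finset F)) c ⟨?_, hx'⟩ hlt
      exact (Finset.coe_subset.2 hT').trans
        (WellFounded.min_mem (wellFounded_lt (α := Finset F)) c hne).1
  choose s hsB hsx hmin using hex
  refine ⟨s, FQ, ?_, ?_⟩
  · intro Q x
    constructor
    · intro h
      exact M.closure_subset_closure (Set.subset_inter h (hsB x)) (hsx x)
    · intro h
      have h' : x ∈ M.closure (Q ∩ B) := h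
      have hind : M.Indep ((s x : Set F) ∪ (Q ∩ B)) :=
        hB.indep.subset (Set.union_subset (hsB x) Set.inter_subset_right)
      have h1 : x ∈ M.closure ((s x : Set F) ∩ (Q ∩ B)) := by
        rw [hind.closure_inter_eq_inter_closure]
        exact ⟨hsx x, h'⟩
      have h2 := hmin x ((s x).filter (· ∈ Q ∩ B)) (Finset.filter_subset _ _) (by
        convert h1 using 2
        ext y; simp)
      intro y hy
      rw [← h2] at hy
      exact ((Finset.mem_filter.1 hy).2).1
  · intro Q
    have h1 : #(FQ Q) ≤ max #(Algebra.adjoin R (Q ∩ B)) ℵ₀ := by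
      refine le_trans ?_ (Algebraic.cardinalMk_le_max (Algebra.adjoin R (Q ∩ B)) F)
      refine mk_le_of_injective (f := fun x => ⟨x.1, (hcl _ _).1 x.2⟩) ?_
      rintro ⟨a, ha⟩ ⟨b, hb⟩ hab
      exact Subtype.ext (Subtype.mk.inj hab)
    refine h1.trans (max_le ?_ (le_max_right _ _))
    refine (Algebra.cardinalMk_adjoin_le R (Q ∩ B)).trans ?_
    refine max_le (max_le (hRc.trans (le_max_right _ _)) ?_) (le_max_right _ _)
    exact (mk_le_mk_of_subset Set.inter_subset_left).trans (le_max_left _ _)

theorem finSupported_GL {κ : Cardinal.{u}} (hω : ℵ₀ < κ) (F : Type u) [Field F] (m : ℕ) :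
    FinSupported κ (GL (Fin m) F) := by
  classical
  obtain ⟨s, FQ, hs, hc⟩ := exists_fieldSupp F
  let supp : GL (Fin m) F → Finset F := fun A =>
    Finset.univ.biUnion fun p : Fin m × Fin m => s ((A : Matrix (Fin m) (Fin m) F) p.1 p.2)
  have hsupp : ∀ (A : GL (Fin m) F) (Q : Set F), (supp A : Set F) ⊆ Q ↔
      ∀ i j, (A : Matrix (Fin m) (Fin m) F) i j ∈ FQ Q := by
    intro A Q
    simp only [supp, Finset.coe_biUnion, Finset.mem_coe, Finset.mem_univ, Set.iUnion_true,
      Set.iUnion_subset_iff, hs, Prod.forall]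
  -- the subgroups
  let H : Set F → Subgroup (GL (Fin m) F) := fun Q =>
    (Matrix.GeneralLinearGroup.map (n := Fin m) (FQ Q).subtype).range
  have hH : ∀ (A : GL (Fin m) F) (Q : Set F), (supp A : Set F) ⊆ Q ↔ A ∈ H Q := by
    intro A Q
    rw [hsupp]
    constructor
    · intro h
      let A' : Matrix (Fin m) (Fin m) (FQ Q) := fun i j => ⟨_, h i j⟩
      have hA' : A'.map (FQ Q).subtype = (A : Matrix (Fin m) (Fin m) F) := by
        ext i j; rfl
      have hdet : A'.det ≠ 0 := by
        intro h0
        have h1 : (A : Matrix (Fin m) (Fin m) F).det = 0 := by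
          rw [← hA']
          have := RingHom.map_det (FQ Q).subtype A'
          rw [h0, map_zero] at this
          exact this.symm
        exact (Matrix.GeneralLinearGroup.det A).ne_zero h1
      refine ⟨Matrix.GeneralLinearGroup.mkOfDetNeZero A' hdet, ?_⟩
      ext i j
      rfl
    · rintro ⟨A', rfl⟩ i j
      exact SetLike.coe_mem ((A' : Matrix (Fin m) (Fin m) (FQ Q)) i j)
  refine ⟨F, supp, ℵ₀, hω, ?_, ?_⟩
  · intro x y
    rw [hH]
    refine (H _).mul_mem ?_ ((H _).inv_mem ?_)
    · rw [← hH]; exact Set.subset_union_left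
    · rw [← hH]; exact Set.subset_union_right
  · intro Q
    have h1 : #{A : GL (Fin m) F | (supp A : Set F) ⊆ Q} ≤ #(Fin m → Fin m → FQ Q) := by
      refine mk_le_of_injective (f := fun A i j => ⟨_, (hsupp A.1 Q).1 A.2 i j⟩) ?_
      rintro ⟨A, hA⟩ ⟨A', hA'⟩ h
      apply Subtype.ext
      ext i j
      exact congrArg Subtype.val (congrFun (congrFun h i) j)
    refine h1.trans ?_
    have h2 : ∀ X : Type u, #(Fin m → X) ≤ max #X ℵ₀ := by
      intro X
      simp only [mk_pi, prod_const, mk_fin]
      simpa using power_nat_le_max (c := #X) (n := m)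
    refine (h2 _).trans (max_le ?_ (le_max_right _ _))
    exact (h2 _).trans (max_le (hc Q) (le_max_right _ _))

end Pool.Agent.helper48.Part
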