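import Pool.Agent.helper48.Part.Series
import Pool.Agent.helper48.Part.Abelian
import Pool.Agent.helper48.Part.Linear

set_option autoImplicit false

/-!
# MP_4f48ca_al: groups of singular cardinality with a countable normal series with nice factors
-/

universe u

namespace Pool.Agent.Results.MP_4f48ca_al.NormalSeries

open Pool.Agent.helper48.Part Cardinal

/-- The allowed factors `Q`: abelian, or linear over a field, or of cardinality `< κ`, or with
finite supports below `κ`. -/
def NiceFactor (κ : Cardinal.{u}) (Q : Type u) [Group Q] : Prop :=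
  (∀ x y : Q, x * y = y * x) ∨
  (∃ (F : Type u) (_ : Field F) (m : ℕ) (ρ : Q →* GL (Fin m) F), Function.Injective ρ) ∨
  Cardinal.mk Q < κ ∨
  FinSupported κ Q

/-- `G` has an ascending series of normal subgroups `N α`, `α ≤ δ`, with `δ` a countable ordinal,
`|G / N 0| = |G|`, `N δ = G`, continuous at limits, and with nice factors `N (α+1) / N α`. -/
def HasNiceSeries (G : Type u) [Group G] : Prop :=
  ∃ (δ : Ordinal.{0}) (N : Ordinal.{0} → Subgroup G) (_ : ∀ α, (N α).Normal),
    δ.card ≤ ℵ₀ ∧ Cardinal.mk (G ⧸ N 0) = Cardinal.mk G ∧ N δ = ⊤ ∧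
    (∀ α < δ, N α ≤ N (α + 1)) ∧
    (∀ α ≤ δ, Order.IsSuccLimit α → ∀ x ∈ N α, ∃ β < α, x ∈ N β) ∧
    ∀ α < δ, NiceFactor (Cardinal.mk G) (N (α + 1) ⧸ (N α).subgroupOf (N (α + 1)))

theorem result (G : Type u) [Group G] [Infinite G] (hsing : ¬ (Cardinal.mk G).IsRegular)
    (hG : HasNiceSeries G) : GoodPartition G := by
  have hω' : ℵ₀ ≤ #G := aleph0_le_mk G
  have hω : ℵ₀ < #G := by
    refine lt_of_le_of_ne hω' ?_
    intro h
    exact hsing (h ▸ isRegular_aleph0)
  have hκ : ∀ c < #G, Order.succ c < #G := by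
    intro c hc
    rcases lt_or_ge c ℵ₀ with h | h
    · exact lt_of_le_of_lt (Order.succ_le_of_lt h) hω
    · refine lt_of_le_of_ne (Order.succ_le_of_lt hc) ?_
      intro h'
      exact hsing (h' ▸ isRegular_succ h)
  obtain ⟨δ, N, hN, hδ, h0, htop, hmono, hlim, hf⟩ := hG
  refine good_of_series hκ hω δ hδ N hN (by rw [h0]; exact lt_irrefl _) htop hmono hlim ?_
  intro α hα
  rcases hf α hα with h | ⟨F, _, m, ρ, hρ⟩ | h | h
  · exact Or.inr (finSupported_of_comm hω h)
  · exact Or.inr ((finSupported_GL hω F m).of_injective ρ hρ)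
  · exact Or.inl h
  · exact Or.inr h

end Pool.Agent.Results.MP_4f48ca_al.NormalSeries
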