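import Pool.Agent.helper48.Part.Core

set_option autoImplicit false
open Pointwise Cardinal

universe u

namespace Pool.Agent.helper48.Part

theorem good_of_cof {G : Type u} [Group G] (hω : ℵ₀ ≤ #G) (h : (#G).ord.cof ≤ ℵ₀) :
    GoodPartition G := by
  classical
  set o := (#G).ord with ho
  obtain ⟨S, hS, hSc⟩ := Order.exists_cof_eq (α := o.ToType)
  rw [Ordinal.cof_toType] at hSc
  have hne : Nonempty o.ToType := by
    rw [Ordinal.nonempty_toType_iff]
    rw [ho, Ne, Cardinal.ord_eq_zero]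
    exact (aleph0_pos.trans_le hω).ne'
  obtain ⟨e⟩ : Nonempty (G ≃ o.ToType) := by
    rw [← Cardinal.eq, Cardinal.mk_toType, ho, card_ord]
  have hScount : S.Countable := by
    rw [← le_aleph0_iff_set_countable, hSc]; exact h
  have hSne : S.Nonempty := by
    obtain ⟨x⟩ := hne
    obtain ⟨y, hy, -⟩ := hS x
    exact ⟨y, hy⟩
  obtain ⟨s, hs⟩ := hScount.exists_eq_range hSne
  have hex : ∀ x : G, ∃ n, e x ≤ s n := by
    intro x
    obtain ⟨y, hy, hxy⟩ := hS (e x)
    rw [hs] at hy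
    obtain ⟨n, rfl⟩ := hy
    exact ⟨n, hxy⟩
  refine good_of_small_union hω (fun x => Nat.find (hex x)) ?_
  intro n
  have h1 : #{x : G | Nat.find (hex x) = n} ≤ #(Set.Iic (s n)) := by
    have h0 : ∀ x : G, Nat.find (hex x) = n → e x ≤ s n := by
      intro x hx
      have := Nat.find_spec (hex x)
      rwa [hx] at this
    refine mk_le_of_injective (f := fun x => ⟨e x.1, h0 x.1 x.2⟩) ?_
    intro a b hab
    exact Subtype.ext (e.injective (congrArg Subtype.val hab))
  refine h1.trans_lt ?_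
  have h2 : #(Set.Iic (s n)) ≤ #(Set.Iio (s n)) + 1 := by
    rw [← Set.Iio_insert]
    exact mk_insert_le
  refine h2.trans_lt (add_lt_of_lt hω ?_ (one_lt_aleph0.trans_le hω))
  have h3 := Cardinal.mk_Iio_lt (s n) (by rw [Cardinal.mk_toType, Ordinal.type_toType, ho, card_ord])
  have hoc : #o.ToType = #G := by rw [Cardinal.mk_toType, ho, card_ord]
  exact h3.trans_eq hoc

theorem FinSupported.of_injective {κ : Cardinal.{u}} {K L : Type u} [Group K] [Group L]
    (φ : K →* L) (hφ : Function.Injective φ) (h : FinSupported κ L) : FinSupported κ K := by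
  obtain ⟨P, supp, θ, hθ, hdiv, hfib⟩ := h
  refine ⟨P, fun x => supp (φ x), θ, hθ, fun x y => ?_, fun Q => ?_⟩
  · have := hdiv (φ x) (φ y)
    rwa [← map_inv, ← map_mul] at this
  · refine le_trans ?_ (hfib Q)
    refine mk_le_of_injective (f := fun x => ⟨φ x.1, x.2⟩) ?_
    intro a b hab
    exact Subtype.ext (hφ (congrArg Subtype.val hab))

/-- the key step: `M ≤ N` normal subgroups with `#(G/M) = #G`, `#(G/N) < #G` and `N/M` finitely supported or small -/
theorem good_of_factor {G : Type u} [Group G] (hκ : ∀ c < #G, Order.succ c < #G)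
    (hω : ℵ₀ < #G) (M N : Subgroup G) [hM : M.Normal] [hN : N.Normal] (hMN : M ≤ N)
    (h1 : ¬ #(G ⧸ M) < #G) (h2 : #(G ⧸ N) < #G)
    (hf : #(N ⧸ M.subgroupOf N) < #G ∨ FinSupported (#G) (N ⧸ M.subgroupOf N)) :
    GoodPartition G := by
  have h1' : #(G ⧸ M) = #G := le_antisymm mk_quotient_le (not_lt.1 h1)
  apply good_of_quotient M h1'
  set K : Subgroup (G ⧸ M) := N.map (QuotientGroup.mk' M) with hK
  have hKn : K.Normal := hN.map _ (QuotientGroup.mk'_surjective M)
  have hq : #((G ⧸ M) ⧸ K) < #G := by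
    rw [mk_congr (QuotientGroup.quotientQuotientEquivQuotient M N hMN).toEquiv]
    exact h2
  -- injective hom from K to the quotient
  obtain ⟨φ, hφ⟩ : ∃ φ : K →* (N ⧸ M.subgroupOf N), Function.Injective φ := by
    set f : N →* G ⧸ M := (QuotientGroup.mk' M).comp N.subtype with hfdef
    have hr : K = f.range := by
      rw [hfdef, MonoidHom.range_comp, Subgroup.range_subtype]
    have hk : f.ker = M.subgroupOf N := by
      ext x
      rw [MonoidHom.mem_ker, Subgroup.mem_subgroupOf]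
      simp [hfdef]
    let e : K ≃* (N ⧸ M.subgroupOf N) :=
      (MulEquiv.subgroupCongr hr).trans
        ((QuotientGroup.quotientKerEquivRange f).symm.trans (QuotientGroup.quotientMulEquivOfEq hk))
    exact ⟨e.toMonoidHom, e.injective⟩
  have hKc : #K = #(G ⧸ M) := mk_eq_of_quotient_lt (by rw [h1']; exact hω.le) K (by rw [h1']; exact hq)
  have hfs : FinSupported (#G) (N ⧸ M.subgroupOf N) := by
    rcases hf with hf | hf
    · exact absurd (hf.trans_le' (mk_le_of_injective hφ)) (by rw [hKc, h1']; exact lt_irrefl _)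
    · exact hf
  refine good_of_normal_supported (by rw [h1']; exact hκ) (by rw [h1']; exact hω) K
    (by rw [h1']; exact hq) ?_
  rw [h1']
  exact hfs.of_injective φ hφ

theorem good_of_series {G : Type u} [Group G] (hκ : ∀ c < #G, Order.succ c < #G)
    (hω : ℵ₀ < #G) (δ : Ordinal.{0}) (hδ : δ.card ≤ ℵ₀) (N : Ordinal.{0} → Subgroup G)
    (hnormal : ∀ α, (N α).Normal) (h0 : ¬ #(G ⧸ N 0) < #G) (hδ' : N δ = ⊤)
    (hmono : ∀ α < δ, N α ≤ N (α + 1))
    (hlim : ∀ α ≤ δ, Order.IsSuccLimit α → ∀ x ∈ N α, ∃ β < α, x ∈ N β)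
    (hf : ∀ α < δ, #(N (α + 1) ⧸ (N α).subgroupOf (N (α + 1))) < #G ∨
      FinSupported (#G) (N (α + 1) ⧸ (N α).subgroupOf (N (α + 1)))) :
    GoodPartition G := by
  classical
  have hex : ∃ α, α ≤ δ ∧ #(G ⧸ N α) < #G := by
    refine ⟨δ, le_rfl, ?_⟩
    rw [hδ']
    have : #(G ⧸ (⊤ : Subgroup G)) ≤ 1 := by
      rw [le_one_iff_subsingleton]
      exact QuotientGroup.subsingleton_quotient_top
    exact this.trans_lt (one_lt_aleph0.trans hω)
  obtain ⟨α, ⟨hαδ, hα⟩, hmin⟩ : ∃ α, (α ≤ δ ∧ #(G ⧸ N α) < #G) ∧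
      ∀ β < α, ¬ (β ≤ δ ∧ #(G ⧸ N β) < #G) := by
    refine ⟨WellFounded.min Ordinal.lt_wf {α | α ≤ δ ∧ #(G ⧸ N α) < #G} hex,
      WellFounded.min_mem _ _ hex, fun β hβ hβ' => ?_⟩
    exact WellFounded.not_lt_min Ordinal.lt_wf {α | α ≤ δ ∧ #(G ⧸ N α) < #G} hβ' hβ
  have hmin' : ∀ β < α, ¬ #(G ⧸ N β) < #G := fun β hβ h =>
    hmin β hβ ⟨hβ.le.trans hαδ, h⟩
  rcases Ordinal.zero_or_succ_or_isSuccLimit α with h | ⟨β, rfl⟩ | h
  · exfalso
    rw [h] at hα
    exact h0 hα
  · have hβα : β < Order.succ β := Order.lt_succ β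
    have := hnormal β
    have := hnormal (β + 1)
    exact good_of_factor hκ hω (N β) (N (β + 1)) (hmono β (hβα.trans_le hαδ)) (hmin' β hβα) hα
      (hf β (hβα.trans_le hαδ))
  · have hcount : (Set.Iio α).Countable := by
      rw [← le_aleph0_iff_set_countable, Cardinal.mk_Iio_ordinal, ← lift_aleph0.{1, 0}, lift_le]
      exact (Ordinal.card_le_card hαδ).trans hδ
    have hne : (Set.Iio α).Nonempty := ⟨0, h.bot_lt⟩
    obtain ⟨s, hs⟩ := hcount.exists_eq_range hne
    have hsα : ∀ n, s n < α := by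
      intro n
      have : s n ∈ Set.Iio α := by rw [hs]; exact ⟨n, rfl⟩
      exact this
    refine good_of_normal_union hω (fun n => N (s n)) (fun n => hnormal _)
      (fun n => hmin' _ (hsα n)) (N α) hα ?_
    intro x hx
    obtain ⟨β, hβ, hxβ⟩ := hlim α hαδ h x hx
    have : β ∈ Set.range s := by rw [← hs]; exact hβ
    obtain ⟨n, rfl⟩ := this
    exact ⟨n, hxβ⟩

end Pool.Agent.helper48.Part
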